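import Pool.Agent.H76.SW.T

namespace Pool.Agent.H17.SW

open Pool.Agent.H76.SW

theorem pf_D0 : U_d0_tree := by
  intro N r pa rk h
  set G : SimpleGraph N := SimpleGraph.fromRel fun x y : N => x ≠ r ∧ pa x = y with hG
  have hadj : ∀ x, x ≠ r → G.Adj x (pa x) := by
    intro x hx
    rw [hG, SimpleGraph.fromRel_adj]
    refine ⟨?_, Or.inl ⟨hx, rfl⟩⟩
    intro he
    have := h x hx
    rw [← he] at this
    exact lt_irrefl _ this
  have hcase : ∀ x y, G.Adj x y → (x ≠ r ∧ pa x = y) ∨ (y ≠ r ∧ pa y = x) := by
    intro x y hxy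
    rw [hG, SimpleGraph.fromRel_adj] at hxy
    exact hxy.2
  have hreach : ∀ n x, rk x = n → G.Reachable x r := by
    intro n
    induction n using Nat.strong_induction_on with
    | _ n ih =>
      intro x hx
      by_cases hxr : x = r
      · rw [hxr]
      · have h1 := h x hxr
        rw [hx] at h1
        exact (hadj x hxr).reachable.trans (ih _ h1 _ rfl)
  refine ⟨?_, ?_⟩
  · have : Nonempty N := ⟨r⟩
    exact SimpleGraph.Connected.mk fun x y =>
      (hreach _ x rfl).trans (hreach _ y rfl).symm
  · intro v c hc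
    classical
    obtain ⟨x, hx, hmax⟩ : ∃ x ∈ c.support, ∀ y ∈ c.support, rk y ≤ rk x := by
      have hne : c.support.toFinset.Nonempty := ⟨v, by simp⟩
      obtain ⟨x, hx, hm⟩ := Finset.exists_max_image c.support.toFinset rk hne
      exact ⟨x, List.mem_toFinset.1 hx, fun y hy => hm y (List.mem_toFinset.2 hy)⟩
    have hc' := hc.rotate hx
    have hnb : ∀ y, G.Adj x y → y ∈ (c.rotate x hx).support → y = pa x := by
      intro y hxy hy
      rcases hcase x y hxy with h1 | h1
      · exact h1.2.symm
      · exfalso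
        have h2 := h y h1.1
        rw [h1.2] at h2
        have h3 := hmax y ((c.mem_support_rotate_iff x hx).1 hy)
        exact absurd h2 (not_lt.2 h3)
    have hnn : ¬ (c.rotate x hx).Nil := hc'.not_nil
    have e1 := hnb _ (SimpleGraph.Walk.adj_snd hnn) (SimpleGraph.Walk.getVert_mem_support _ _)
    have e2 := hnb _ (SimpleGraph.Walk.adj_penultimate hnn).symm
      (SimpleGraph.Walk.getVert_mem_support _ _)
    exact hc'.snd_ne_penultimate (e1.trans e2.symm)

end Pool.Agent.H17.SW
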