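import Pool.Agent.H76.SW.T

namespace Pool.Agent.H17.SW

open Pool.Agent.H76.SW

/-- A step of a word which is not silent stays inside the word. -/
theorem pw_bound {A : Type} (w : List (A × Bool)) (s t : ℕ) (l : Option (A × Bool))
    (h : pw w s l t) : s < w.length + 1 ∧ t < w.length + 1 := by
  obtain ⟨a, h1 | h1⟩ := h
  · obtain ⟨_, h2, h3⟩ := h1
    have h4 : s < w.length := by
      by_contra hc
      rw [List.getElem?_eq_none (not_lt.1 hc)] at h3
      exact absurd h3 (by simp)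
    omega
  · obtain ⟨_, h2, h3⟩ := h1
    have h4 : t < w.length := by
      by_contra hc
      rw [List.getElem?_eq_none (not_lt.1 hc)] at h3
      exact absurd h3 (by simp)
    omega

theorem pf_U7 : U_u7_fin := by
  intro A I _ n hn x y w
  classical
  set gs := ws x y w (fun _ => True) with hgs
  let g : Fin n ⊕ (Σ e : I, Fin ((w e).length + 1)) → Cv gs :=
    Sum.elim (fun i => cl gs (Sum.inl i)) (fun z => cl gs (Sum.inr (z.1, (z.2 : ℕ))))
  have hfin : Finite (Set.range g) := Set.finite_range g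
  let _ : Fintype (Set.range g) := Fintype.ofFinite _
  have hmem : ∀ p a q, canon gs p a q → p ∈ Set.range g ∧ q ∈ Set.range g := by
    intro p a q h
    obtain ⟨u, v, hu, hv, hs⟩ := h
    rw [hgs] at hs
    rcases hs with ⟨e, s, t, h1, h2, h3⟩ | ⟨h1, _⟩
    · obtain ⟨b1, b2⟩ := pw_bound (w e) s t _ h3
      refine ⟨⟨Sum.inr ⟨e, ⟨s, b1⟩⟩, ?_⟩, ⟨Sum.inr ⟨e, ⟨t, b2⟩⟩, ?_⟩⟩
      · rw [← hu, h1]
        rfl
      · rw [← hv, h2]
        rfl
    · exact absurd h1 (by simp)
  have hin : ∀ i, cl gs (Sum.inl i) ∈ Set.range g := fun i => ⟨Sum.inl i, rfl⟩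
  refine ⟨Set.range g, inferInstance, fun u a v => canon gs u.1 a v.1,
    fun i => ⟨cl gs (Sum.inl i), hin i⟩, ?_, ?_, ?_⟩
  · have h1 := Fintype.card_le_of_surjective (Set.rangeFactorization g)
      Set.rangeFactorization_surjective
    rw [Fintype.card_sum, Fintype.card_sigma, Fintype.card_fin] at h1
    simpa using h1
  · refine ⟨fun p => if h : p ∈ Set.range g then ⟨p, h⟩ else ⟨cl gs (Sum.inl ⟨0, hn⟩), hin _⟩,
      ?_, ?_⟩
    · intro i
      exact dif_pos (hin i)
    · intro p a q h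
      obtain ⟨h1, h2⟩ := hmem p a q h
      have e1 : (if h : p ∈ Set.range g then (⟨p, h⟩ : Set.range g)
          else ⟨cl gs (Sum.inl ⟨0, hn⟩), hin _⟩) = ⟨p, h1⟩ := dif_pos h1
      have e2 : (if h : q ∈ Set.range g then (⟨q, h⟩ : Set.range g)
          else ⟨cl gs (Sum.inl ⟨0, hn⟩), hin _⟩) = ⟨q, h2⟩ := dif_pos h2
      beta_reduce
      rw [e1, e2]
      exact h
  · exact ⟨fun v => v.1, fun i => rfl, fun p a q h => h⟩

end Pool.Agent.H17.SW
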